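import Mathlib

/-! A binary code of large distance and a family of time vectors on many scales. -/

namespace Pool.Agent.MP_9b0ed7_co.H8

open Finset

theorem card_small_sets (B s : ℕ) :
    ((univ : Finset (Finset (Fin B))).filter fun T => T.card ≤ s).card ≤ (B + 1) ^ s := by
  have h1 : ((univ : Finset (Finset (Fin B))).filter fun T => T.card ≤ s) ⊆
      (range (s + 1)).biUnion fun k => powersetCard k (univ : Finset (Fin B)) := by
    intro T hT
    simp only [mem_filter, mem_univ, true_and] at hT
    simp only [mem_biUnion, mem_range, mem_powersetCard]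
    exact ⟨T.card, by omega, subset_univ _, rfl⟩
  refine (card_le_card h1).trans (card_biUnion_le.trans ?_)
  rw [add_pow]
  refine sum_le_sum fun k hk => ?_
  rw [card_powersetCard, card_univ, Fintype.card_fin, one_pow, mul_one]
  have hk' : k ≤ s := by simpa [Nat.lt_succ_iff] using hk
  calc B.choose k ≤ B ^ k := Nat.choose_le_pow B k
    _ ≤ B ^ k * s.choose k := Nat.le_mul_of_pos_right _ (Nat.choose_pos hk')

/-- The greedy bound for binary codes. -/
theorem gv (B s : ℕ) : ∃ C : Finset (Fin B → Bool),
    (∀ y ∈ C, ∀ y' ∈ C, y ≠ y' → s ≤ (univ.filter fun b => y b ≠ y' b).card) ∧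
      2 ^ B ≤ C.card * (B + 1) ^ s := by
  classical
  obtain ⟨C, hC, hmax⟩ := exists_max_image
    ((univ : Finset (Finset (Fin B → Bool))).filter fun C : Finset (Fin B → Bool) =>
      ∀ y ∈ C, ∀ y' ∈ C, y ≠ y' → s ≤ (univ.filter fun b : Fin B => y b ≠ y' b).card)
    Finset.card ⟨∅, by simp⟩
  simp only [mem_filter, mem_univ, true_and] at hC hmax
  refine ⟨C, hC, ?_⟩
  have hcov : (univ : Finset (Fin B → Bool)) ⊆
      C.biUnion fun y => univ.filter fun z => (univ.filter fun b => y b ≠ z b).card ≤ s := by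
    intro z _
    simp only [mem_biUnion, mem_filter, mem_univ, true_and]
    by_contra hcon
    push Not at hcon
    have hz : z ∉ C := fun hz => by simpa using hcon z hz
    have := hmax (insert z C) (by
      intro y hy y' hy' hne
      rcases mem_insert.1 hy with rfl | hy1 <;> rcases mem_insert.1 hy' with rfl | hy2
      · exact absurd rfl hne
      · have := (hcon y' hy2).le
        simpa only [ne_comm] using this
      · exact (hcon y hy1).le
      · exact hC y hy1 y' hy2 hne)
    rw [card_insert_of_notMem hz] at this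
    omega
  have h2 := (card_le_card hcov).trans card_biUnion_le
  rw [card_univ, Fintype.card_fun, Fintype.card_bool, Fintype.card_fin] at h2
  refine h2.trans ?_
  rw [← smul_eq_mul]
  refine sum_le_card_nsmul _ _ _ fun y _ => ?_
  refine le_trans ?_ (card_small_sets B s)
  refine card_le_card_of_injOn (fun z => univ.filter fun b => y b ≠ z b) ?_ ?_
  · intro z hz
    simpa using hz
  · intro z _ z' _ h
    funext b
    have h3 : b ∈ (univ.filter fun b => y b ≠ z b) ↔ b ∈ (univ.filter fun b => y b ≠ z' b) := by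
      have h4 : (univ.filter fun b => y b ≠ z b) = univ.filter fun b => y b ≠ z' b := h
      rw [h4]
    simp only [mem_filter, mem_univ, true_and] at h3
    cases hy : y b <;> cases hz : z b <;> cases hz' : z' b <;> simp_all

/-- On some scale `q`, every pair of windows is met by `s` points. -/
def Full (L s M : ℕ) {S : Type} (t t' : S → ℕ) : Prop :=
  ∃ q w : ℕ, 0 < q ∧ q ∣ M ∧ (w + L) * q ≤ M ∧ ∀ α < L, ∀ β < L, ∃ e : Fin s → S,
    Function.Injective e ∧ ∀ i, t (e i) / q = w + α ∧ t' (e i) / q = w + β

theorem family (L B s : ℕ) [NeZero L] (C : Type) [Fintype C] (cw : C → Fin B → Bool)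
    (hC : ∀ y y', y ≠ y' → ∃ e : Fin s → Fin B, Function.Injective e ∧
      ∀ i, cw y (e i) ≠ cw y' (e i)) (j : ℕ) :
    ∃ (Idx I : Type) (_ : Fintype Idx) (_ : Fintype I), Fintype.card Idx = L ^ j ∧
      Fintype.card C ^ (j * L ^ j) ≤ Fintype.card I ^ L ∧
      ∃ t : I → (Idx × Fin B) × ZMod L → ℕ, (∀ u h, t u h < L ^ j) ∧
        ∀ u v, u ≠ v → Full L s (L ^ j) (t u) (t v) := by
  classical
  have hL : 0 < L := Nat.pos_of_ne_zero (NeZero.ne L)
  induction j with
  | zero =>
    exact ⟨Unit, Unit, inferInstance, inferInstance, by simp, by simp, fun _ _ => 0, by simp,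
      fun u v h => absurd rfl h⟩
  | succ j ih =>
    obtain ⟨Idx, I, _, _, hIdx, hI, t, ht, hfull⟩ := ih
    let sh : (Idx → C) → Idx → Fin B → ZMod L → ZMod L := fun y i b l =>
      if cw (y i) b = true then l else 0
    have hQ : 0 < L ^ j := pow_pos hL j
    refine ⟨Idx × ZMod L, (Idx → C) × (ZMod L → I), inferInstance, inferInstance, ?_, ?_,
      fun u h => (h.2 + sh u.1 h.1.1.1 h.1.2 h.1.1.2).val * L ^ j +
        t (u.2 (h.2 + sh u.1 h.1.1.1 h.1.2 h.1.1.2)) ((h.1.1.1, h.1.2), h.1.1.2), ?_, ?_⟩
    · rw [Fintype.card_prod, hIdx, ZMod.card, pow_succ]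
    · rw [Fintype.card_prod, Fintype.card_fun, Fintype.card_fun, hIdx, ZMod.card, mul_pow,
        ← pow_mul]
      calc Fintype.card C ^ ((j + 1) * L ^ (j + 1))
          = Fintype.card C ^ (L ^ j * L) * (Fintype.card C ^ (j * L ^ j)) ^ L := by
            rw [← pow_mul, ← pow_add]
            congr 1
            ring
        _ ≤ _ := Nat.mul_le_mul_left _ (Nat.pow_le_pow_left hI L)
    · intro u h
      set κ := h.2 + sh u.1 h.1.1.1 h.1.2 h.1.1.2
      have h1 : κ.val + 1 ≤ L := ZMod.val_lt κ
      have h2 := ht (u.2 κ) ((h.1.1.1, h.1.2), h.1.1.2)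
      calc κ.val * L ^ j + t (u.2 κ) ((h.1.1.1, h.1.2), h.1.1.2) < (κ.val + 1) * L ^ j := by
            rw [add_mul, one_mul]; omega
        _ ≤ L * L ^ j := Nat.mul_le_mul_right _ h1
        _ = L ^ (j + 1) := by rw [pow_succ, mul_comm]
    · rintro ⟨y, z⟩ ⟨y', z'⟩ huv
      have hdiv : ∀ (κ : ZMod L) (a : I) (h : (Idx × Fin B) × ZMod L),
          (κ.val * L ^ j + t a h) / L ^ j = κ.val := by
        intro κ a h
        rw [mul_comm, Nat.mul_add_div hQ, Nat.div_eq_of_lt (ht a h), add_zero]
      by_cases hy : y = y'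
      · subst hy
        have hz : z ≠ z' := fun h => huv (by rw [h])
        obtain ⟨κ, hκ⟩ := Function.ne_iff.1 hz
        obtain ⟨q, w, hq, ⟨d, hd⟩, hw, hcell⟩ := hfull _ _ hκ
        refine ⟨q, κ.val * d + w, hq, ⟨d * L, by rw [pow_succ, hd, mul_assoc]⟩, ?_, ?_⟩
        · have h1 : κ.val + 1 ≤ L := ZMod.val_lt κ
          calc (κ.val * d + w + L) * q = κ.val * L ^ j + (w + L) * q := by rw [hd]; ring
            _ ≤ κ.val * L ^ j + L ^ j := Nat.add_le_add_left hw _
            _ = (κ.val + 1) * L ^ j := by ring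
            _ ≤ L * L ^ j := Nat.mul_le_mul_right _ h1
            _ = L ^ (j + 1) := by rw [pow_succ, mul_comm]
        · intro α hα β hβ
          obtain ⟨e, he, hp⟩ := hcell α hα β hβ
          refine ⟨fun i => ((((e i).1.1, (e i).2), (e i).1.2),
            κ - sh y (e i).1.1 (e i).1.2 (e i).2), ?_, fun i => ?_⟩
          · intro i i' h
            apply he
            simp only [Prod.mk.injEq] at h
            exact Prod.ext (Prod.ext h.1.1.1 h.1.2) h.1.1.2
          · have e1 : ∀ k : ℕ, (κ.val * L ^ j + k) / q = κ.val * d + k / q := by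
              intro k
              rw [hd, show κ.val * (q * d) = q * (κ.val * d) by ring, Nat.mul_add_div hq]
            simp only [sub_add_cancel, e1, Prod.mk.eta, (hp i).1, (hp i).2, add_assoc, and_self]
      · obtain ⟨i0, hi0⟩ := Function.ne_iff.1 hy
        obtain ⟨e, he, hp⟩ := hC _ _ hi0
        refine ⟨L ^ j, 0, hQ, ⟨L, pow_succ L j⟩, by rw [zero_add, pow_succ, mul_comm], ?_⟩
        intro α hα β hβ
        refine ⟨fun i => if cw (y i0) (e i) = true then (((i0, (α : ZMod L) - β), e i), (β : ZMod L))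
          else (((i0, (β : ZMod L) - α), e i), (α : ZMod L)), ?_, fun i => ?_⟩
        · intro i i' h
          apply he
          have h1 := congrArg (fun p : ((Idx × ZMod L) × Fin B) × ZMod L => p.1.2) h
          simp only [apply_ite (fun p : ((Idx × ZMod L) × Fin B) × ZMod L => p.1.2),
            ite_self] at h1
          exact h1
        · have h1 := hp i
          simp only [hdiv, zero_add]
          by_cases h2 : cw (y i0) (e i) = true
          · have h3 : ¬ cw (y' i0) (e i) = true := fun h => h1 (h2.trans h.symm)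
            simp [sh, h2, h3, ZMod.val_cast_of_lt hα, ZMod.val_cast_of_lt hβ]
          · have h3 : cw (y' i0) (e i) = true := by
              cases h4 : cw (y' i0) (e i) <;> simp_all
            simp [sh, h2, h3, ZMod.val_cast_of_lt hα, ZMod.val_cast_of_lt hβ]

end Pool.Agent.MP_9b0ed7_co.H8
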