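import Mathlib

/-! A colouring of pairs in which every colour joins any two large sets, and greedy embedding. -/

namespace Pool.Agent.MP_9b0ed7_co.H8

open Finset

theorem exists_emb {S : Type} {A : Finset S} {k : ℕ} (h : k ≤ A.card) :
    ∃ e : Fin k → S, Function.Injective e ∧ ∀ i, e i ∈ A := by
  obtain ⟨g, hg⟩ := Function.Embedding.exists_of_card_le_finset (α := Fin k) (s := A)
    (by simpa using h)
  exact ⟨g, g.injective, fun i => by simpa using hg ⟨i, rfl⟩⟩

theorem colour (S : Type) [Fintype S] (M σ : ℕ) (hM : 0 < M)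
    (h : Fintype.card S ^ (2 * σ) * M * (M - 1) ^ (σ * σ) < M ^ (σ * σ)) :
    ∃ φ : S → S → Fin M, ∀ A B : Finset S, σ ≤ A.card → σ ≤ B.card → ∀ c : Fin M,
      ∃ a ∈ A, ∃ b ∈ B, φ a b = c := by
  classical
  let T := ((Fin σ → S) × (Fin σ → S)) × Fin M
  let bad : T → Finset (S × S → Fin M) := fun p =>
    if Function.Injective p.1.1 ∧ Function.Injective p.1.2 then
      Fintype.piFinset fun x => if x ∈ (univ.image p.1.1) ×ˢ (univ.image p.1.2)
        then univ.erase p.2 else univ
    else ∅
  have hbad : ∀ p : T, (bad p).card * M ^ (σ * σ) ≤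
      (M - 1) ^ (σ * σ) * M ^ Fintype.card (S × S) := by
    intro p
    simp only [bad]
    split_ifs with hp
    · set P := (univ.image p.1.1) ×ˢ (univ.image p.1.2) with hP
      have hPc : P.card = σ * σ := by
        rw [hP, card_product, card_image_of_injective _ hp.1, card_image_of_injective _ hp.2]
        simp
      rw [Fintype.card_piFinset]
      have e1 : ∀ x : S × S, (if x ∈ P then univ.erase p.2 else (univ : Finset (Fin M))).card
          = if x ∈ P then M - 1 else M := by
        intro x
        split_ifs <;> simp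
      simp only [e1]
      rw [prod_ite, prod_const, prod_const, filter_mem_eq_inter, univ_inter, hPc, mul_assoc,
        ← pow_add]
      have e2 : (univ.filter fun x => x ∉ P).card + σ * σ = Fintype.card (S × S) := by
        have := card_filter_add_card_filter_not (s := (univ : Finset (S × S))) (fun x => x ∈ P)
        rw [filter_mem_eq_inter, univ_inter, hPc, card_univ] at this
        omega
      rw [e2]
    · simp
  have hT : Fintype.card T = Fintype.card S ^ (2 * σ) * M := by
    simp only [T, Fintype.card_prod, Fintype.card_fun, Fintype.card_fin]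
    ring
  have hlt : (univ.biUnion bad).card < (univ : Finset (S × S → Fin M)).card := by
    rw [card_univ, Fintype.card_fun, Fintype.card_fin]
    have h1 : (univ.biUnion bad).card * M ^ (σ * σ) ≤
        Fintype.card T * ((M - 1) ^ (σ * σ) * M ^ Fintype.card (S × S)) := by
      refine (Nat.mul_le_mul_right _ card_biUnion_le).trans ?_
      rw [sum_mul, ← smul_eq_mul, ← card_univ]
      exact sum_le_card_nsmul _ _ _ fun p _ => hbad p
    rw [hT, ← mul_assoc] at h1
    have h2 := h1.trans_lt (Nat.mul_lt_mul_of_pos_right h (pow_pos hM (Fintype.card (S × S))))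
    rw [mul_comm] at h2
    exact Nat.lt_of_mul_lt_mul_left h2
  obtain ⟨φ, -, hφ⟩ := exists_mem_notMem_of_card_lt_card hlt
  refine ⟨fun a b => φ (a, b), fun A B hA hB c => ?_⟩
  obtain ⟨e, he, heA⟩ := exists_emb hA
  obtain ⟨e', he', heB⟩ := exists_emb hB
  by_contra hcon
  push Not at hcon
  apply hφ
  rw [mem_biUnion]
  refine ⟨((e, e'), c), mem_univ _, ?_⟩
  simp only [bad]
  rw [if_pos ⟨he, he'⟩, Fintype.mem_piFinset]
  rintro ⟨a, b⟩
  split_ifs with hab
  · simp only [mem_product, mem_image, mem_univ, true_and] at hab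
    obtain ⟨⟨i, rfl⟩, ⟨i', rfl⟩⟩ := hab
    simpa using hcon _ (heA i) _ (heB i')
  · exact mem_univ _

theorem embed {S : Type} {M σ : ℕ} (hσ : 0 < σ) {φ : S → S → Fin M}
    (hφ : ∀ A B : Finset S, σ ≤ A.card → σ ≤ B.card → ∀ c : Fin M, ∃ a ∈ A, ∃ b ∈ B, φ a b = c)
    (r : ℕ) : ∀ (P : Fin r → Finset S) (col : Fin r → Fin r → Fin M),
      (∀ a, (2 * σ) ^ r ≤ (P a).card) →
      ∃ h : Fin r → S, (∀ a, h a ∈ P a) ∧ ∀ a a', a < a' → φ (h a) (h a') = col a a' := by
  classical
  induction r with
  | zero => exact fun P col _ => ⟨Fin.elim0, fun a => a.elim0, fun a => a.elim0⟩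
  | succ r ih =>
    intro P col hP
    have hpos : 0 < (2 * σ) ^ r := by positivity
    let nb : S → Fin r → Finset S := fun p a => (P a.succ).filter fun b => φ p b = col 0 a.succ
    let Bad : Fin r → Finset S := fun a => (P 0).filter fun p => (nb p a).card < (2 * σ) ^ r
    have hBad : ∀ a, (Bad a).card ≤ σ := by
      intro a
      by_contra hcon
      obtain ⟨A, hA, hAc⟩ := exists_subset_card_eq (not_le.1 hcon).le
      have h1 : (A.biUnion fun p => nb p a).card ≤ σ * (2 * σ) ^ r := by
        refine card_biUnion_le.trans ?_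
        rw [← hAc, ← smul_eq_mul]
        refine sum_le_card_nsmul _ _ _ fun p hp => ?_
        have := (mem_filter.1 (hA hp)).2
        rw [hAc]
        exact this.le
      have h2 : σ ≤ (P a.succ \ A.biUnion fun p => nb p a).card := by
        have h3 := le_card_sdiff (A.biUnion fun p => nb p a) (P a.succ)
        have h4 := hP a.succ
        rw [pow_succ] at h4
        have h5 : σ ≤ σ * (2 * σ) ^ r := Nat.le_mul_of_pos_right _ hpos
        have h6 : (2 * σ) ^ r * (2 * σ) = σ * (2 * σ) ^ r + σ * (2 * σ) ^ r := by ring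
        omega
      obtain ⟨p, hp, b, hb, hpb⟩ := hφ A _ hAc.ge h2 (col 0 a.succ)
      rw [mem_sdiff] at hb
      exact hb.2 (mem_biUnion.2 ⟨p, hp, mem_filter.2 ⟨hb.1, hpb⟩⟩)
    have hlt : (univ.biUnion Bad).card < (P 0).card := by
      have h1 : (univ.biUnion Bad).card ≤ r * σ := by
        refine card_biUnion_le.trans ?_
        have := sum_le_card_nsmul univ (fun a => (Bad a).card) σ fun a _ => hBad a
        simpa using this
      have h2 : r < (2 * σ) ^ r := Nat.lt_pow_self (by omega)
      have h3 := hP 0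
      rw [pow_succ] at h3
      have h4 : r * σ < (2 * σ) ^ r * (2 * σ) := by nlinarith
      omega
    obtain ⟨p, hp0, hp⟩ := exists_mem_notMem_of_card_lt_card hlt
    have hgood : ∀ a, (2 * σ) ^ r ≤ (nb p a).card := by
      intro a
      by_contra hcon
      exact hp (mem_biUnion.2 ⟨a, mem_univ _, mem_filter.2 ⟨hp0, not_le.1 hcon⟩⟩)
    obtain ⟨h, hh, hcol⟩ := ih (nb p) (fun a a' => col a.succ a'.succ) hgood
    refine ⟨Fin.cons p h, fun a => ?_, fun a a' haa => ?_⟩
    · refine Fin.cases ?_ (fun a => ?_) a
      · simpa using hp0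
      · simpa using (mem_filter.1 (hh a)).1
    · revert haa
      refine Fin.cases ?_ (fun a' => ?_) a'
      · intro haa
        exact absurd haa (Fin.not_lt_zero a)
      · refine Fin.cases ?_ (fun a => ?_) a
        · intro _
          simpa using (mem_filter.1 (hh a')).2
        · intro haa
          simpa using hcol a a' (Fin.succ_lt_succ_iff.1 haa)

end Pool.Agent.MP_9b0ed7_co.H8
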