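import Mathlib
import Pool.Agent.MP_9b0ed7_co.H41.Basic
import Pool.Agent.MP_9b0ed7_co.H41.Lower
import Pool.Agent.MP_9b0ed7_co.H8.Code
import Pool.Agent.MP_9b0ed7_co.H8.Colour

/-! The host graph: two zones of hubs joined to an independent set. -/

namespace Pool.Agent.MP_9b0ed7_co.H8

open Finset Pool.Agent.MP_9b0ed7_co.H41

theorem perturb {E : Type} [Finite E] (t : E → ℕ) :
    ∃ l : E → ℝ, Function.Injective l ∧ ∀ e e', t e < t e' → l e < l e' := by
  obtain ⟨N, ⟨enc⟩⟩ := Finite.exists_equiv_fin E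
  have key : ∀ e e', t e < t e' → t e * N + (enc e).val < t e' * N + (enc e').val := by
    intro e e' h
    have h1 := (enc e).isLt
    have h2 : (t e + 1) * N ≤ t e' * N := Nat.mul_le_mul_right _ h
    rw [add_mul, one_mul] at h2
    omega
  refine ⟨fun e => ((t e * N + (enc e).val : ℕ) : ℝ), fun e e' h => ?_, fun e e' h => ?_⟩
  · have h1 : t e * N + (enc e).val = t e' * N + (enc e').val := Nat.cast_injective h
    rcases lt_trichotomy (t e) (t e') with h2 | h2 | h2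
    · exact absurd h1 (key _ _ h2).ne
    · rw [h2] at h1
      exact enc.injective (Fin.ext (by omega))
    · exact absurd h1.symm (key _ _ h2).ne
  · exact Nat.cast_lt.2 (key e e' h)

theorem exists_rank {E : Type} [Fintype E] (l : E → ℝ) :
    ∃ ρ : E → ℕ, (∀ e, ρ e < Fintype.card E) ∧ ∀ e e', l e < l e' → ρ e < ρ e' := by
  classical
  refine ⟨fun e => (univ.filter fun e' => l e' < l e).card, fun e => ?_, fun e e' h => ?_⟩
  · rw [← card_univ]
    exact card_lt_card (filter_ssubset.2 ⟨e, mem_univ _, lt_irrefl _⟩)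
  · refine card_lt_card ⟨fun a ha => ?_, fun hcon => ?_⟩
    · simp only [mem_filter, mem_univ, true_and] at ha ⊢
      exact ha.trans h
    · have := hcon (show e ∈ univ.filter fun e'' => l e'' < l e' by simpa using h)
      simp at this

variable {W V S : Type}

/-- An edge from the independent set to a hub of zone `z`. -/
def XH (G : SimpleGraph W) (x y : Bool → W) (ι : Bool × W × S → V) (z : Bool) (u v : V) : Prop :=
  u ∉ Set.range ι ∧ ∃ a h, v = ι (z, a, h) ∧ a ≠ x z ∧ a ≠ y z ∧ (G.Adj a (x z) ∨ G.Adj a (y z))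

/-- An edge between two hubs of zone `z`. -/
def HH (G : SimpleGraph W) (x y : Bool → W) (ι : Bool × W × S → V) (z : Bool) (u v : V) : Prop :=
  ∃ a h a' h', u = ι (z, a, h) ∧ v = ι (z, a', h') ∧ a ≠ x z ∧ a ≠ y z ∧ G.Adj a a' ∧
    a' ≠ x z ∧ a' ≠ y z

/-- The edges of zone `z`. -/
def Zn (G : SimpleGraph W) (x y : Bool → W) (ι : Bool × W × S → V) (z : Bool) (u v : V) : Prop :=
  XH G x y ι z u v ∨ XH G x y ι z v u ∨ HH G x y ι z u v

variable {G : SimpleGraph W} {x y : Bool → W} {ι : Bool × W × S → V}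

theorem Zn.symm {z : Bool} {u v : V} (h : Zn G x y ι z u v) : Zn G x y ι z v u := by
  rcases h with h | h | ⟨a, h, a', h', e1, e2, h1, h2, h3, h4, h5⟩
  · exact Or.inr (Or.inl h)
  · exact Or.inl h
  · exact Or.inr (Or.inr ⟨a', h', a, h, e2, e1, h4, h5, h3.symm, h1, h2⟩)

theorem Zn.ne (hι : Function.Injective ι) {z : Bool} {u v : V} (h : Zn G x y ι z u v) :
    u ≠ v := by
  rintro rfl
  rcases h with ⟨h1, a, h, e, -⟩ | ⟨h1, a, h, e, -⟩ | ⟨a, h, a', h', e1, e2, -, -, h3, -⟩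
  · exact h1 ⟨_, e.symm⟩
  · exact h1 ⟨_, e.symm⟩
  · have := hι (e1.symm.trans e2)
    simp only [Prod.mk.injEq] at this
    exact h3.ne this.2.1

theorem Zn.hub {z : Bool} {u v : V} (h : Zn G x y ι z u v) :
    u ∈ Set.range ι ∨ v ∈ Set.range ι := by
  rcases h with ⟨-, a, h, e, -⟩ | ⟨-, a, h, e, -⟩ | ⟨a, h, a', h', e1, -⟩
  · exact Or.inr ⟨_, e.symm⟩
  · exact Or.inl ⟨_, e.symm⟩
  · exact Or.inl ⟨_, e1.symm⟩

/-- The host graph. -/
def host (G : SimpleGraph W) (x y : Bool → W) {ι : Bool × W × S → V}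
    (hι : Function.Injective ι) : SimpleGraph V where
  Adj u v := ∃ z, Zn G x y ι z u v
  symm := ⟨fun _ _ ⟨z, h⟩ => ⟨z, h.symm⟩⟩
  loopless := ⟨fun _ ⟨_, h⟩ => h.ne hι rfl⟩

/-- The offset of a zone. -/
def off (M : ℕ) (z : Bool) : ℕ := if z = true then M else 0

/-- The time of a pair of hubs inside a zone. -/
def hh {r M : ℕ} (idx : W ≃ Fin r) (φ : S → S → Fin M) (a : W) (h : S) (a' : W) (h' : S) : ℕ :=
  if idx a < idx a' then (φ h h').val else if idx a' < idx a then (φ h' h).val else 0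

theorem hh_symm {r M : ℕ} (idx : W ≃ Fin r) (φ : S → S → Fin M) (a : W) (h : S) (a' : W)
    (h' : S) : hh idx φ a h a' h' = hh idx φ a' h' a h := by
  unfold hh
  rcases lt_trichotomy (idx a) (idx a') with h1 | h1 | h1
  · simp [h1, h1.le.not_gt]
  · simp [h1]
  · simp [h1, h1.le.not_gt]

theorem hh_lt {r M : ℕ} (hM : 0 < M) (idx : W ≃ Fin r) (φ : S → S → Fin M) (a : W) (h : S)
    (a' : W) (h' : S) : hh idx φ a h a' h' < M := by
  unfold hh
  split_ifs
  · exact Fin.isLt _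
  · exact Fin.isLt _
  · exact hM

theorem exists_time {r M : ℕ} (idx : W ≃ Fin r) (φ : S → S → Fin M) (τ : V → S → ℕ)
    (hι : Function.Injective ι) : ∃ t : Sym2 V → ℕ,
      (∀ u ∉ Set.range ι, ∀ z a h, t s(u, ι (z, a, h)) = 2 * off M z + τ u h) ∧
      ∀ z a h a' h', t s(ι (z, a, h), ι (z, a', h')) = 2 * off M z + hh idx φ a h a' h' := by
  classical
  let cl : V → Option (Bool × W × S) := Function.partialInv ι
  have cl1 : ∀ p, cl (ι p) = some p := Function.partialInv_left hι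
  have cl0 : ∀ u ∉ Set.range ι, cl u = none := by
    intro u hu
    simp only [cl, Function.partialInv]
    exact dif_neg hu
  let T0 : V → V → Option (Bool × W × S) → Option (Bool × W × S) → ℕ := fun u v o o' =>
    match o, o' with
    | none, none => 0
    | none, some p => 2 * off M p.1 + τ u p.2.2
    | some p, none => 2 * off M p.1 + τ v p.2.2
    | some p, some p' => off M p.1 + off M p'.1 + hh idx φ p.2.1 p.2.2 p'.2.1 p'.2.2
  have hsymm : ∀ u v o o', T0 u v o o' = T0 v u o' o := by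
    intro u v o o'
    cases o <;> cases o' <;> simp only [T0]
    rw [hh_symm, add_comm (off M _)]
  refine ⟨Sym2.lift ⟨fun u v => T0 u v (cl u) (cl v), fun u v => hsymm _ _ _ _⟩, ?_, ?_⟩
  · intro u hu z a h
    simp only [Sym2.lift_mk, cl0 u hu, cl1, T0]
  · intro z a h a' h'
    simp only [Sym2.lift_mk, cl1, T0, two_mul]

section Copy

variable {r M L s : ℕ} {idx : W ≃ Fin r} {φ : S → S → Fin M} {τ : V → S → ℕ} {t : Sym2 V → ℕ}

theorem zone_time (hM : 0 < M) (hτ : ∀ u h, τ u h < M)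
    (ht1 : ∀ u ∉ Set.range ι, ∀ z a h, t s(u, ι (z, a, h)) = 2 * off M z + τ u h)
    (ht2 : ∀ z a h a' h', t s(ι (z, a, h), ι (z, a', h')) = 2 * off M z + hh idx φ a h a' h')
    {z : Bool} {u v : V} (h : Zn G x y ι z u v) :
    2 * off M z ≤ t s(u, v) ∧ t s(u, v) < 2 * off M z + M := by
  rcases h with ⟨h1, a, h, rfl, -⟩ | ⟨h1, a, h, rfl, -⟩ | ⟨a, h, a', h', rfl, rfl, -⟩
  · have := hτ u h
    rw [ht1 u h1]; omega
  · have := hτ v h
    rw [Sym2.eq_swap, ht1 v h1]; omega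
  · have := hh_lt hM idx φ a h a' h'
    rw [ht2]; omega

theorem rooted_copy (hι : Function.Injective ι) {ρ : Sym2 W → ℕ} (hρ : ∀ e, ρ e < L)
    (hemb : ∀ (P : Fin r → Finset S) (col : Fin r → Fin r → Fin M), (∀ a, s ≤ (P a).card) →
      ∃ h : Fin r → S, (∀ a, h a ∈ P a) ∧ ∀ a a', a < a' → φ (h a) (h a') = col a a')
    (ht1 : ∀ u ∉ Set.range ι, ∀ z a h, t s(u, ι (z, a, h)) = 2 * off M z + τ u h)
    (ht2 : ∀ z a h a' h', t s(ι (z, a, h), ι (z, a', h')) = 2 * off M z + hh idx φ a h a' h')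
    (z : Bool) (hxy : G.Adj (x z) (y z)) {u v : V} (hu : u ∉ Set.range ι) (hv : v ∉ Set.range ι)
    (huv : u ≠ v) (hfull : Full L s M (τ u) (τ v)) :
    ∃ f : W → V, Function.Injective f ∧ f (x z) = u ∧ f (y z) = v ∧
      (∀ a b, G.Adj a b → s(a, b) ≠ s(x z, y z) → Zn G x y ι z (f a) (f b)) ∧
      ∀ a b c d, G.Adj a b → G.Adj c d → s(a, b) ≠ s(x z, y z) → s(c, d) ≠ s(x z, y z) →
        ρ s(a, b) < ρ s(c, d) → t s(f a, f b) < t s(f c, f d) := by
  classical
  obtain ⟨q, w, hq, -, hw, hcell⟩ := hfull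
  have hc : ∀ a : W, ∃ P : Finset S, s ≤ P.card ∧
      ∀ h ∈ P, τ u h / q = w + ρ s(x z, a) ∧ τ v h / q = w + ρ s(y z, a) := by
    intro a
    obtain ⟨e, he, hp⟩ := hcell _ (hρ s(x z, a)) _ (hρ s(y z, a))
    refine ⟨univ.image e, by rw [card_image_of_injective _ he]; simp, fun h hh => ?_⟩
    obtain ⟨i, -, rfl⟩ := mem_image.1 hh
    exact hp i
  choose P hP hPt using hc
  have hlt : ∀ e : Sym2 W, (w + ρ e) * q < M := fun e =>
    lt_of_lt_of_le (Nat.mul_lt_mul_of_pos_right (Nat.add_lt_add_left (hρ e) w) hq) hw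
  obtain ⟨h0, hmem, hcol⟩ := hemb (fun i => P (idx.symm i))
    (fun i i' => ⟨(w + ρ s(idx.symm i, idx.symm i')) * q, hlt _⟩) (fun i => hP _)
  let h : W → S := fun a => h0 (idx a)
  have hmem' : ∀ a, h a ∈ P a := fun a => by simpa using hmem (idx a)
  have hcol' : ∀ a a', a ≠ a' → hh idx φ a (h a) a' (h a') = (w + ρ s(a, a')) * q := by
    intro a a' hne
    unfold hh
    rcases lt_trichotomy (idx a) (idx a') with h1 | h1 | h1
    · rw [if_pos h1]
      simp only [h]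
      rw [hcol _ _ h1]
      simp
    · exact absurd (idx.injective h1) hne
    · rw [if_neg h1.le.not_gt, if_pos h1]
      simp only [h]
      rw [hcol _ _ h1, Sym2.eq_swap]
      simp
  let f : W → V := fun a => if a = x z then u else if a = y z then v else ι (z, a, h a)
  have fx : f (x z) = u := if_pos rfl
  have fy : f (y z) = v := by simp [f, hxy.ne']
  have fo : ∀ a, a ≠ x z → a ≠ y z → f a = ι (z, a, h a) := fun a h1 h2 => by simp [f, h1, h2]
  have half : ∀ a b, G.Adj a b → s(a, b) ≠ s(x z, y z) → (a = x z ∨ a = y z) →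
      Zn G x y ι z (f a) (f b) ∧
        ∃ k, t s(f a, f b) = 2 * off M z + k ∧ k / q = w + ρ s(a, b) := by
    intro a b hab hne ha
    have hb1 : b ≠ x z := by
      rintro rfl
      rcases ha with h1 | h1
      · exact hab.ne h1
      · exact hne (by rw [h1, Sym2.eq_swap])
    have hb2 : b ≠ y z := by
      rintro rfl
      rcases ha with h1 | h1
      · exact hne (by rw [h1])
      · exact hab.ne h1
    rw [fo b hb1 hb2]
    rcases ha with rfl | rfl
    · rw [fx]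
      exact ⟨Or.inl ⟨hu, b, h b, rfl, hb1, hb2, Or.inl hab.symm⟩, _, ht1 u hu _ _ _,
        (hPt b _ (hmem' b)).1⟩
    · rw [fy]
      exact ⟨Or.inl ⟨hv, b, h b, rfl, hb1, hb2, Or.inr hab.symm⟩, _, ht1 v hv _ _ _,
        (hPt b _ (hmem' b)).2⟩
  have key : ∀ a b, G.Adj a b → s(a, b) ≠ s(x z, y z) → Zn G x y ι z (f a) (f b) ∧
      ∃ k, t s(f a, f b) = 2 * off M z + k ∧ k / q = w + ρ s(a, b) := by
    intro a b hab hne
    by_cases ha : a = x z ∨ a = y z
    · exact half a b hab hne ha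
    by_cases hb : b = x z ∨ b = y z
    · have := half b a hab.symm (by rwa [Sym2.eq_swap]) hb
      rw [Sym2.eq_swap (a := f b), Sym2.eq_swap (a := b)] at this
      exact ⟨this.1.symm, this.2⟩
    push Not at ha hb
    rw [fo a ha.1 ha.2, fo b hb.1 hb.2]
    refine ⟨Or.inr (Or.inr ⟨a, h a, b, h b, rfl, rfl, ha.1, ha.2, hab, hb.1, hb.2⟩), _,
      ht2 _ _ _ _ _, ?_⟩
    rw [hcol' a b hab.ne, Nat.mul_div_cancel _ hq]
  refine ⟨f, ?_, fx, fy, fun a b hab hne => (key a b hab hne).1, ?_⟩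
  · intro a b hab
    by_cases a1 : a = x z <;> by_cases b1 : b = x z
    · rw [a1, b1]
    · by_cases b2 : b = y z
      · rw [a1, b2, fx, fy] at hab
        exact absurd hab huv
      · rw [a1, fx, fo b b1 b2] at hab
        exact absurd ⟨_, hab.symm⟩ hu
    · by_cases a2 : a = y z
      · rw [a2, b1, fx, fy] at hab
        exact absurd hab.symm huv
      · rw [b1, fx, fo a a1 a2] at hab
        exact absurd ⟨_, hab⟩ hu
    · by_cases a2 : a = y z <;> by_cases b2 : b = y z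
      · rw [a2, b2]
      · rw [a2, fy, fo b b1 b2] at hab
        exact absurd ⟨_, hab.symm⟩ hv
      · rw [b2, fy, fo a a1 a2] at hab
        exact absurd ⟨_, hab⟩ hv
      · rw [fo a a1 a2, fo b b1 b2] at hab
        have := hι hab
        simp only [Prod.mk.injEq] at this
        exact this.2.1
  · intro a b c d hab hcd h1 h2 hlt'
    obtain ⟨-, k, e1, e2⟩ := key a b hab h1
    obtain ⟨-, k', e3, e4⟩ := key c d hcd h2
    have : k < k' := Nat.lt_of_div_lt_div (c := q) (by omega)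
    omega

end Copy

/-- What the construction gives: every pair outside the hubs is dead. -/
def Dead (G : SimpleGraph W) (lG : Sym2 W → ℝ) (H0 : SimpleGraph V) (l0 : Sym2 V → ℝ)
    (X : Set V) : Prop :=
  ∀ (H : SimpleGraph V) (l : Sym2 V → ℝ), Emb id H0 l0 H l → ∀ u ∈ X, ∀ v ∈ X, H.Adj u v →
    ∃ f : W → V, Function.Injective f ∧ (∀ a b, G.Adj a b → H.Adj (f a) (f b)) ∧
      (∀ a b c d, G.Adj a b → G.Adj c d → lG s(a, b) < lG s(c, d) →
        l s(f a, f b) < l s(f c, f d)) ∧ ∃ a b, G.Adj a b ∧ f a = u ∧ f b = v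

theorem exists_dead [Fintype W] [Finite V] {lG : Sym2 W → ℝ} (hι : Function.Injective ι)
    (hxy : ∀ z, G.Adj (x z) (y z))
    (hmin : ∀ a b, G.Adj a b → lG s(x true, y true) ≤ lG s(a, b))
    (hmax : ∀ a b, G.Adj a b → lG s(a, b) ≤ lG s(x false, y false))
    {M s : ℕ} (hM : 0 < M) {φ : S → S → Fin M} {τ : V → S → ℕ} (hτ : ∀ u h, τ u h < M)
    (hemb : ∀ (P : Fin (Fintype.card W) → Finset S)
      (col : Fin (Fintype.card W) → Fin (Fintype.card W) → Fin M), (∀ a, s ≤ (P a).card) →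
      ∃ h : Fin (Fintype.card W) → S, (∀ a, h a ∈ P a) ∧
        ∀ a a', a < a' → φ (h a) (h a') = col a a')
    {L : ℕ} (hL : Nat.card (Sym2 W) ≤ L) (hfull : ∀ u v, u ≠ v → Full L s M (τ u) (τ v)) :
    ∃ l0 : Sym2 V → ℝ, Function.Injective l0 ∧ Dead G lG (host G x y hι) l0 (Set.range ι)ᶜ := by
  classical
  obtain ⟨ρ, hρ, hρm⟩ := exists_rank lG
  have hρ' : ∀ e, ρ e < L := fun e => (hρ e).trans_le (by rwa [← Nat.card_eq_fintype_card])
  obtain ⟨t, ht1, ht2⟩ := exists_time (Fintype.equivFin W) φ τ hι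
  obtain ⟨l0, hl0, hl0m⟩ := perturb t
  refine ⟨l0, hl0, fun H l hE u hu v hv huv => ?_⟩
  have hord : ∀ z z' a b c d, Zn G x y ι z a b → Zn G x y ι z' c d → t s(a, b) < t s(c, d) →
      l s(a, b) < l s(c, d) := fun z z' a b c d h1 h2 h3 =>
    hE.ord a b c d ⟨z, h1⟩ ⟨z', h2⟩ (hl0m _ _ h3)
  have hmap : ∀ {z : Bool} {f : W → V}, f (x z) = u → f (y z) = v → ∀ a b,
      s(a, b) = s(x z, y z) → s(f a, f b) = s(u, v) := by
    intro z f fx fy a b h
    have := congrArg (Sym2.map f) h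
    simpa only [Sym2.map_mk, fx, fy] using this
  have hadj : ∀ {z : Bool} {f : W → V}, f (x z) = u → f (y z) = v →
      (∀ a b, G.Adj a b → s(a, b) ≠ s(x z, y z) → Zn G x y ι z (f a) (f b)) →
      ∀ a b, G.Adj a b → H.Adj (f a) (f b) := by
    intro z f fx fy hz a b hab
    by_cases h : s(a, b) = s(x z, y z)
    · have h1 : s(f a, f b) ∈ H.edgeSet := by rw [hmap fx fy a b h]; exact huv
      exact h1
    · exact hE.adj _ _ ⟨z, hz a b hab h⟩
  by_cases hc : ∀ a b, Zn G x y ι true a b → l s(u, v) < l s(a, b)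
  · obtain ⟨f, hf, fx, fy, hz, ho⟩ := rooted_copy (G := G) (x := x) (y := y) hι hρ' hemb ht1 ht2
      true (hxy true) hu hv huv.ne (hfull u v huv.ne)
    refine ⟨f, hf, hadj fx fy hz, fun a b c d hab hcd hl => ?_, _, _, hxy true, fx, fy⟩
    have h2 : s(c, d) ≠ s(x true, y true) := by
      intro h
      rw [h] at hl
      exact absurd (hmin a b hab) hl.not_ge
    by_cases h1 : s(a, b) = s(x true, y true)
    · rw [hmap fx fy a b h1]
      exact hc _ _ (hz c d hcd h2)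
    · exact hord _ _ _ _ _ _ (hz a b hab h1) (hz c d hcd h2)
        (ho a b c d hab hcd h1 h2 (hρm _ _ hl))
  · push Not at hc
    obtain ⟨a0, b0, h0, hle⟩ := hc
    obtain ⟨f, hf, fx, fy, hz, ho⟩ := rooted_copy (G := G) (x := x) (y := y) hι hρ' hemb ht1 ht2
      false (hxy false) hu hv huv.ne (hfull u v huv.ne)
    refine ⟨f, hf, hadj fx fy hz, fun a b c d hab hcd hl => ?_, _, _, hxy false, fx, fy⟩
    have h1 : s(a, b) ≠ s(x false, y false) := by
      intro h
      rw [h] at hl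
      exact absurd (hmax c d hcd) hl.not_ge
    by_cases h2 : s(c, d) = s(x false, y false)
    · rw [hmap fx fy c d h2]
      refine lt_of_lt_of_le (hord _ _ _ _ _ _ (hz a b hab h1) h0 ?_) hle
      have h3 := (zone_time hM hτ ht1 ht2 (hz a b hab h1)).2
      have h4 := (zone_time hM hτ ht1 ht2 h0).1
      simp only [off, Bool.false_eq_true, if_false, if_true] at h3 h4
      omega
    · exact hord _ _ _ _ _ _ (hz a b hab h1) (hz c d hcd h2)
        (ho a b c d hab hcd h1 h2 (hρm _ _ hl))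

theorem edge_count {P : Type} [Fintype P] [Fintype V] (κ : P → V) (H : SimpleGraph V)
    (h : ∀ u v, H.Adj u v → u ∈ Set.range κ ∨ v ∈ Set.range κ) :
    H.edgeSet.ncard ≤ Fintype.card P * Fintype.card V := by
  have h1 : H.edgeSet ⊆ Set.range fun p : P × V => s(κ p.1, p.2) := by
    intro e he
    induction e using Sym2.ind with
    | _ u v =>
      rcases h u v he with ⟨p, rfl⟩ | ⟨p, rfl⟩
      · exact ⟨(p, v), rfl⟩
      · exact ⟨(p, u), Sym2.eq_swap⟩
  refine (Set.ncard_le_ncard h1 (Set.toFinite _)).trans ?_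
  rw [← Set.image_univ]
  refine (Set.ncard_image_le (Set.toFinite _)).trans ?_
  rw [Set.ncard_univ, Nat.card_eq_fintype_card, Fintype.card_prod]

theorem semi_of_dead {lG : Sym2 W → ℝ} {H0 : SimpleGraph V} {l0 : Sym2 V → ℝ} {Y : Set V}
    (hl0 : Function.Injective l0) (hH0 : ∀ u v, H0.Adj u v → u ∈ Y ∨ v ∈ Y)
    (hd : Dead G lG H0 l0 Yᶜ) :
    ∃ (H : SimpleGraph V) (l : Sym2 V → ℝ), EdgeOrdered H l ∧ SemiSaturated H l G lG ∧
      ∀ u v, H.Adj u v → u ∈ Y ∨ v ∈ Y := by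
  classical
  let H : SimpleGraph V :=
    { Adj := fun u v => u ≠ v ∧ (u ∈ Y ∨ v ∈ Y)
      symm := ⟨fun _ _ h => ⟨h.1.symm, h.2.symm⟩⟩
      loopless := ⟨fun _ h => h.1 rfl⟩ }
  refine ⟨H, l0, hl0.injOn, ?_, fun u v h => h.2⟩
  intro u v huv hadj p _
  have hY : ¬ (u ∈ Y ∨ v ∈ Y) := fun h => hadj ⟨huv, h⟩
  have hne : ∀ a b, H0.Adj a b → s(a, b) ≠ s(u, v) := by
    intro a b hab h
    rcases Sym2.eq_iff.1 h with ⟨rfl, rfl⟩ | ⟨rfl, rfl⟩
    · exact hY (hH0 _ _ hab)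
    · exact hY (hH0 _ _ hab).symm
  refine hd (H ⊔ SimpleGraph.edge u v) _ ⟨Function.injective_id,
    fun a b hab => Or.inl ⟨hab.ne, hH0 a b hab⟩, fun a b c d hab hcd hl => ?_⟩
    u (fun h => hY (Or.inl h)) v (fun h => hY (Or.inr h)) (Or.inr ?_)
  · simp only [id]
    rwa [Function.update_of_ne (hne a b hab), Function.update_of_ne (hne c d hcd)]
  · rw [SimpleGraph.edge_adj]
    exact ⟨Or.inl ⟨rfl, rfl⟩, huv⟩

theorem sat_of_dead [Fintype V] [Fintype W] {lG : Sym2 W → ℝ} {H0 : SimpleGraph V}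
    {l0 : Sym2 V → ℝ} {Y : Set V} (hc : Fintype.card W ≤ Fintype.card V)
    (hl0 : Function.Injective l0) (hfree : ¬ WC H0 l0 G lG) (hd : Dead G lG H0 l0 Yᶜ) :
    ∃ (H : SimpleGraph V) (l : Sym2 V → ℝ), EdgeOrdered H l ∧ Saturated H l G lG ∧
      ∀ u v, H.Adj u v → u ∈ Y ∨ v ∈ Y := by
  obtain ⟨H, l, h1, h2, -, h4⟩ := exists_saturated hc hl0.injOn hfree
  refine ⟨H, l, h1, h2, fun u v huv => ?_⟩
  by_contra hY
  obtain ⟨f, f1, f2, f3, -⟩ := hd H l h4 u (fun h => hY (Or.inl h)) v (fun h => hY (Or.inr h)) huv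
  exact h2.1 ⟨f, f1, f2, f3⟩

theorem host_free {U : Type} {K : SimpleGraph U} (hι : Function.Injective ι) (F : Bool → W → U)
    (hF : ∀ z a b, G.Adj a b → s(a, b) ≠ s(x z, y z) → K.Adj (F z a) (F z b)) (o : U)
    (hx : ∀ z, F z (x z) = o) (hy : ∀ z, F z (y z) = o) (hK : IsEmpty (G →g K))
    (l0 : Sym2 V → ℝ) (lG : Sym2 W → ℝ) : ¬ WC (host G x y hι) l0 G lG := by
  classical
  rintro ⟨f, hf⟩
  let ψ : V → U := fun v => match Function.partialInv ι v with
    | none => o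
    | some p => F p.1 p.2.1
  have ψ1 : ∀ p, ψ (ι p) = F p.1 p.2.1 := fun p => by
    simp only [ψ, Function.partialInv_left hι]
  have ψ0 : ∀ u ∉ Set.range ι, ψ u = o := by
    intro u hu
    have : Function.partialInv ι u = none := by
      simp only [Function.partialInv]
      exact dif_neg hu
    simp only [ψ, this]
  have hne : ∀ z a b, a ≠ x z → a ≠ y z → s(a, b) ≠ s(x z, y z) := by
    intro z a b h1 h2 h
    rcases Sym2.eq_iff.1 h with ⟨e, -⟩ | ⟨e, -⟩
    · exact h1 e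
    · exact h2 e
  have hxh : ∀ z u v, XH G x y ι z u v → K.Adj (ψ v) (ψ u) := by
    rintro z u v ⟨hu, a, h, rfl, h1, h2, h3⟩
    rw [ψ1, ψ0 u hu]
    rcases h3 with h3 | h3
    · exact hx z ▸ hF z a _ h3 (hne z a _ h1 h2)
    · exact hy z ▸ hF z a _ h3 (hne z a _ h1 h2)
  have hψ : ∀ u v, (host G x y hι).Adj u v → K.Adj (ψ u) (ψ v) := by
    rintro u v ⟨z, h | h | ⟨a, h, a', h', rfl, rfl, h1, h2, h3, -⟩⟩
    · exact (hxh z u v h).symm
    · exact hxh z v u h
    · rw [ψ1, ψ1]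
      exact hF z a a' h3 (hne z a a' h1 h2)
  exact hK.false ⟨ψ ∘ f, fun {a b} hab => hψ _ _ (hf.adj a b hab)⟩

end Pool.Agent.MP_9b0ed7_co.H8
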