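import Mathlib
import Pool.Agent.MP_9b0ed7_co.H8.Host

/-! The choice of the parameters and the two upper bounds. -/

namespace Pool.Agent.MP_9b0ed7_co.H8

open Finset Pool.Agent.MP_9b0ed7_co.H41

theorem sq_le_two_pow (m : ℕ) (hm : 4 ≤ m) : m * m ≤ 2 ^ m := by
  induction m, hm using Nat.le_induction with
  | base => norm_num
  | succ m hm ih => rw [pow_succ]; nlinarith

theorem two_mul_pred_pow (Q : ℕ) (hQ : 1 ≤ Q) : 2 * (Q - 1) ^ Q ≤ Q ^ Q := by
  obtain ⟨p, rfl⟩ : ∃ p, Q = p + 1 := ⟨Q - 1, by omega⟩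
  rw [Nat.add_sub_cancel]
  have key : ∀ k : ℕ, p ^ (k + 1) + (k + 1) * p ^ k ≤ (p + 1) ^ (k + 1) := by
    intro k
    induction k with
    | zero => simp
    | succ k ih =>
      calc p ^ (k + 1 + 1) + (k + 1 + 1) * p ^ (k + 1)
          ≤ (p ^ (k + 1) + (k + 1) * p ^ k) * (p + 1) := by
            rw [pow_succ p (k + 1), pow_succ p k]
            nlinarith [Nat.zero_le ((k + 1) * p ^ k)]
        _ ≤ (p + 1) ^ (k + 1) * (p + 1) := Nat.mul_le_mul_right _ ih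
        _ = _ := (pow_succ _ _).symm
  have h1 := key p
  have h2 : p ^ (p + 1) ≤ (p + 1) * p ^ p := by
    rw [pow_succ, mul_comm]
    exact Nat.mul_le_mul_right _ (Nat.le_succ p)
  omega

theorem nums (L r l : ℕ) (hL : 2 ≤ L)
    (hl : (L ^ (4 * r + 4)) ^ (13 * (4 * r + 4) * L) ≤ l) :
    ∃ J B : ℕ, 1 ≤ J ∧ 2 * L * l ≤ B * (J * L ^ J) ∧
      (B + 1) ^ (2 * (2 * (L ^ J) ^ 3) ^ r) ≤ 2 ^ B ∧
      (L ^ J * B * L) ^ (2 * (L ^ J) ^ 3) * L ^ J * (L ^ J - 1) ^ ((L ^ J) ^ 3 * (L ^ J) ^ 3) <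
        (L ^ J) ^ ((L ^ J) ^ 3 * (L ^ J) ^ 3) ∧
      L ^ J * B * L * J ≤ 3 * L ^ 2 * l ∧ l < L ^ ((4 * r + 4) * (J + 1)) := by
  set K := 4 * r + 4 with hK
  have hLK : 1 < L ^ K := Nat.one_lt_pow (by omega) (by omega)
  have hl0 : l ≠ 0 := by
    have : 0 < (L ^ K) ^ (13 * K * L) := by positivity
    omega
  set J := Nat.log (L ^ K) l with hJ
  have hJ0 : 13 * K * L ≤ J := Nat.le_log_of_pow_le hLK hl
  have hlo : (L ^ K) ^ J ≤ l := Nat.pow_log_le_self _ hl0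
  have hhi : l < (L ^ K) ^ (J + 1) := Nat.lt_pow_succ_log_self hLK l
  rw [← pow_mul] at hhi
  set Q := L ^ J with hQ
  have hQK : Q ^ K ≤ l := by rw [hQ, ← pow_mul, mul_comm, pow_mul]; exact hlo
  have hJQ : J ≤ Q := (Nat.lt_pow_self (by omega)).le
  have hKL : 8 ≤ K * L := by nlinarith
  have hKL' : 13 * K * L = 13 * (K * L) := by ring
  have hJ1 : 1 ≤ J := by omega
  have hQ2 : 2 ≤ Q := by omega
  have hQQ : Q * Q ≤ l := by
    refine le_trans ?_ hQK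
    rw [← sq]
    exact Nat.pow_le_pow_right (by omega) (by omega)
  have hJQl : J * Q ≤ l := (Nat.mul_le_mul_right _ hJQ).trans hQQ
  have hJQ0 : 0 < J * Q := by positivity
  set B := 2 * L * l / (J * Q) + 1 with hB
  have h1 : 2 * L * l ≤ B * (J * Q) := by
    rw [hB, mul_comm _ (J * Q)]
    exact (Nat.lt_mul_div_succ _ hJQ0).le
  have h2 : B * (J * Q) ≤ 2 * L * l + J * Q := by
    rw [hB, add_mul, one_mul]
    exact Nat.add_le_add_right (Nat.div_mul_le_self _ _) _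
  have h3 : Q * B * L * J ≤ 3 * L ^ 2 * l := by
    calc Q * B * L * J = L * (B * (J * Q)) := by ring
      _ ≤ L * (2 * L * l + L * l) := Nat.mul_le_mul_left _ (h2.trans (Nat.add_le_add_left
          (hJQl.trans (Nat.le_mul_of_pos_left _ (by omega))) _))
      _ = 3 * L ^ 2 * l := by ring
  set a := L * (K * (J + 1) + 4) with ha
  have hbig : 3 * L ^ 2 * l ≤ 2 ^ a := by
    have e1 : 3 * L ^ 2 ≤ L ^ 4 := by
      have : 4 ≤ L ^ 2 := by nlinarith
      nlinarith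
    calc 3 * L ^ 2 * l ≤ L ^ 4 * L ^ (K * (J + 1)) := Nat.mul_le_mul e1 hhi.le
      _ = L ^ (K * (J + 1) + 4) := by ring
      _ ≤ (2 ^ L) ^ (K * (J + 1) + 4) := Nat.pow_le_pow_left (Nat.lt_two_pow_self).le _
      _ = 2 ^ a := by rw [← pow_mul]
  have hB1 : 1 ≤ B := Nat.le_add_left 1 _
  have hD : Q * B * L ≤ 2 ^ a := ((Nat.le_mul_of_pos_right _ hJ1).trans h3).trans hbig
  have hBa : B + 1 ≤ 2 ^ a := by
    refine le_trans ?_ hD
    have : 4 * B ≤ Q * L * B := Nat.mul_le_mul_right _ (by nlinarith)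
    nlinarith
  have haQ : a ≤ 6 * (K * L) * Q := by
    have e1 : K * (J + 1) + 4 ≤ 6 * K * J := by nlinarith
    calc a ≤ L * (6 * K * J) := Nat.mul_le_mul_left _ e1
      _ = 6 * (K * L) * J := by ring
      _ ≤ _ := Nat.mul_le_mul_left _ hJQ
  have hQbig : 13 * (K * L) ≤ Q := by omega
  have hBQ : Q ^ (4 * r + 2) ≤ B := by
    have e1 : Q ^ (4 * r + 2) * (Q * Q) ≤ B * (Q * Q) := by
      calc Q ^ (4 * r + 2) * (Q * Q) = Q ^ K := by rw [hK]; ring
        _ ≤ l := hQK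
        _ ≤ 2 * L * l := Nat.le_mul_of_pos_left _ (by omega)
        _ ≤ B * (J * Q) := h1
        _ ≤ B * (Q * Q) := Nat.mul_le_mul_left _ (Nat.mul_le_mul_right _ hJQ)
    exact Nat.le_of_mul_le_mul_right e1 (by positivity)
  refine ⟨J, B, hJ1, h1, ?_, ?_, h3, hhi⟩
  · have e1 : (2 * Q ^ 3) ^ r ≤ Q ^ (4 * r) := by
      rw [pow_mul]
      refine Nat.pow_le_pow_left ?_ r
      rw [pow_succ' Q 3]
      exact Nat.mul_le_mul_right _ hQ2
    calc (B + 1) ^ (2 * (2 * Q ^ 3) ^ r) ≤ (2 ^ a) ^ (2 * (2 * Q ^ 3) ^ r) :=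
          Nat.pow_le_pow_left hBa _
      _ = 2 ^ (a * (2 * (2 * Q ^ 3) ^ r)) := by rw [← pow_mul]
      _ ≤ 2 ^ B := by
        refine Nat.pow_le_pow_right (by omega) (le_trans ?_ hBQ)
        calc a * (2 * (2 * Q ^ 3) ^ r) ≤ 6 * (K * L) * Q * (2 * Q ^ (4 * r)) :=
              Nat.mul_le_mul haQ (Nat.mul_le_mul_left _ e1)
          _ = 12 * (K * L) * (Q * Q ^ (4 * r)) := by ring
          _ ≤ Q * (Q * Q ^ (4 * r)) := Nat.mul_le_mul_right _ (by omega)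
          _ = Q ^ (4 * r + 2) := by ring
  · have e1 : (Q * B * L) ^ (2 * Q ^ 3) * Q < 2 ^ (Q ^ 5) := by
      have e2 : (Q * B * L) ^ (2 * Q ^ 3) ≤ 2 ^ (a * (2 * Q ^ 3)) := by
        rw [pow_mul 2 a]
        exact Nat.pow_le_pow_left hD _
      calc (Q * B * L) ^ (2 * Q ^ 3) * Q < 2 ^ (a * (2 * Q ^ 3)) * 2 ^ Q :=
            Nat.mul_lt_mul_of_le_of_lt e2 Nat.lt_two_pow_self (by positivity)
        _ = 2 ^ (a * (2 * Q ^ 3) + Q) := by rw [pow_add]
        _ ≤ 2 ^ (Q ^ 5) := by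
          refine Nat.pow_le_pow_right (by omega) ?_
          have e3 : Q ≤ Q ^ 4 := Nat.le_self_pow (by omega) Q
          calc a * (2 * Q ^ 3) + Q ≤ 6 * (K * L) * Q * (2 * Q ^ 3) + Q ^ 4 :=
                Nat.add_le_add (Nat.mul_le_mul_right _ haQ) e3
            _ = (12 * (K * L) + 1) * Q ^ 4 := by ring
            _ ≤ Q * Q ^ 4 := Nat.mul_le_mul_right _ (by omega)
            _ = Q ^ 5 := by ring
    have e4 : 2 ^ (Q ^ 5) * (Q - 1) ^ (Q ^ 3 * Q ^ 3) ≤ Q ^ (Q ^ 3 * Q ^ 3) := by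
      rw [show Q ^ 3 * Q ^ 3 = Q * Q ^ 5 by ring, pow_mul, pow_mul, ← mul_pow]
      exact Nat.pow_le_pow_left (two_mul_pred_pow Q (by omega)) _
    exact lt_of_lt_of_le (Nat.mul_lt_mul_of_pos_right e1 (pow_pos (by omega) _)) e4

theorem zone_data (L r : ℕ) (hL : 2 ≤ L) : ∃ (C : ℝ) (n₀ : ℕ), ∀ n ≥ n₀,
    ∃ (S : Type) (_ : Fintype S) (M s : ℕ) (φ : S → S → Fin M) (τ : Fin n → S → ℕ), 0 < M ∧
      (∀ u h, τ u h < M) ∧
      (∀ (P : Fin r → Finset S) (col : Fin r → Fin r → Fin M), (∀ a, s ≤ (P a).card) →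
        ∃ h : Fin r → S, (∀ a, h a ∈ P a) ∧ ∀ a a', a < a' → φ (h a) (h a') = col a a') ∧
      (∀ u v, u ≠ v → Full L s M (τ u) (τ v)) ∧ 2 * r * Fintype.card S ≤ n ∧ r ≤ n ∧
      (Fintype.card S : ℝ) ≤ C * (Real.log n / Real.log (Real.log n)) := by
  classical
  have : NeZero L := ⟨by omega⟩
  refine ⟨18 * (4 * r + 4) * L ^ 3,
    2 ^ ((L ^ (4 * r + 4)) ^ (13 * (4 * r + 4) * L) + 6 * r * L ^ 2 + 10), fun n hn => ?_⟩
  have hn0 : n ≠ 0 := by
    have : 0 < 2 ^ ((L ^ (4 * r + 4)) ^ (13 * (4 * r + 4) * L) + 6 * r * L ^ 2 + 10) := by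
      positivity
    omega
  set m := Nat.log 2 n with hm
  have hm0 : (L ^ (4 * r + 4)) ^ (13 * (4 * r + 4) * L) + 6 * r * L ^ 2 + 10 ≤ m :=
    Nat.le_log_of_pow_le (by omega) hn
  have hlo : 2 ^ m ≤ n := Nat.pow_log_le_self _ hn0
  have hhi : n < 2 ^ (m + 1) := Nat.lt_pow_succ_log_self (by omega) n
  obtain ⟨J, B, hJ1, h1, h2, h3, h4, h5⟩ := nums L r (m + 1) hL (by omega)
  set Q := L ^ J with hQ
  have hQ0 : 0 < Q := by positivity
  set s := (2 * Q ^ 3) ^ r with hs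
  obtain ⟨C, hC, hCc⟩ := gv B s
  have hA : 2 ^ B ≤ C.card ^ 2 := by
    have e1 : 2 ^ B * 2 ^ B ≤ C.card ^ 2 * 2 ^ B := by
      calc 2 ^ B * 2 ^ B ≤ C.card * (B + 1) ^ s * (C.card * (B + 1) ^ s) := Nat.mul_le_mul hCc hCc
        _ = C.card ^ 2 * (B + 1) ^ (2 * s) := by ring
        _ ≤ _ := Nat.mul_le_mul_left _ h2
    exact Nat.le_of_mul_le_mul_right e1 (by positivity)
  obtain ⟨Idx, I, _, _, hIdx, hI, t, ht, hfull⟩ := family L B s C (fun y => y.1) (by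
    intro y y' hne
    obtain ⟨e, he, hp⟩ := exists_emb (hC y.1 y.2 y'.1 y'.2 fun h => hne (Subtype.ext h))
    exact ⟨e, he, fun i => by simpa using hp i⟩) J
  have hnI : Fintype.card (Fin n) ≤ Fintype.card I := by
    rw [Fintype.card_coe] at hI
    have e1 : (2 ^ (m + 1)) ^ (2 * L) ≤ Fintype.card I ^ (2 * L) := by
      calc (2 ^ (m + 1)) ^ (2 * L) = 2 ^ (2 * L * (m + 1)) := by rw [← pow_mul, mul_comm]
        _ ≤ 2 ^ (B * (J * Q)) := Nat.pow_le_pow_right (by omega) h1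
        _ = (2 ^ B) ^ (J * Q) := pow_mul _ _ _
        _ ≤ (C.card ^ 2) ^ (J * Q) := Nat.pow_le_pow_left hA _
        _ = (C.card ^ (J * Q)) ^ 2 := by rw [← pow_mul, ← pow_mul, mul_comm]
        _ ≤ (Fintype.card I ^ L) ^ 2 := Nat.pow_le_pow_left hI _
        _ = _ := by rw [← pow_mul, mul_comm]
    rw [Fintype.card_fin]
    exact hhi.le.trans ((Nat.pow_le_pow_iff_left (by omega)).1 e1)
  obtain ⟨j⟩ := Function.Embedding.nonempty_of_card_le hnI
  have hS : Fintype.card ((Idx × Fin B) × ZMod L) = Q * B * L := by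
    rw [Fintype.card_prod, Fintype.card_prod, hIdx, Fintype.card_fin, ZMod.card]
  obtain ⟨φ, hφ⟩ := colour ((Idx × Fin B) × ZMod L) Q (Q ^ 3) hQ0 (by rw [hS]; exact h3)
  have hD : Q * B * L ≤ 3 * L ^ 2 * (m + 1) := (Nat.le_mul_of_pos_right _ hJ1).trans h4
  have hmm := sq_le_two_pow m (by omega)
  have hc : 6 * r * L ^ 2 + 1 ≤ m := by omega
  have hL2 : 1 ≤ L ^ 2 := Nat.one_le_pow _ _ (by omega)
  refine ⟨(Idx × Fin B) × ZMod L, inferInstance, Q, s, φ, fun u => t (j u), hQ0,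
    fun u h => ht _ _, embed (by positivity) hφ r,
    fun u v huv => hfull _ _ fun h => huv (j.injective h), ?_, ?_, ?_⟩
  · rw [hS]
    calc 2 * r * (Q * B * L) ≤ 2 * r * (3 * L ^ 2 * (m + 1)) := Nat.mul_le_mul_left _ hD
      _ = 6 * r * L ^ 2 * (m + 1) := by ring
      _ ≤ m * m := by nlinarith
      _ ≤ n := hmm.trans hlo
  · have : r ≤ m := by nlinarith
    have : m ≤ m * m := Nat.le_mul_self m
    omega
  · rw [hS]
    have hlog2 : (1 / 2 : ℝ) < Real.log 2 := by linarith [Real.log_two_gt_d9]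
    have hlog2' : Real.log 2 < 1 := by linarith [Real.log_two_lt_d9]
    have hm10 : (10 : ℝ) ≤ m := by exact_mod_cast (by omega : 10 ≤ m)
    have hn1 : (m : ℝ) * Real.log 2 ≤ Real.log n := by
      rw [← Real.log_pow]
      exact Real.log_le_log (by positivity) (by exact_mod_cast hlo)
    have hn2 : Real.log n ≤ (m + 1 : ℕ) := by
      have : Real.log n ≤ Real.log ((2 : ℝ) ^ (m + 1)) :=
        Real.log_le_log (by positivity) (by exact_mod_cast hhi.le)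
      rw [Real.log_pow] at this
      have h6 : (0 : ℝ) ≤ (m + 1 : ℕ) := by positivity
      nlinarith
    have hn3 : (5 : ℝ) ≤ Real.log n := by nlinarith
    have hn4 : ((m + 1 : ℕ) : ℝ) ≤ 3 * Real.log n := by push_cast; nlinarith
    have hll : 0 < Real.log (Real.log n) := Real.log_pos (by linarith)
    have hll2 : Real.log (Real.log n) ≤ 2 * (4 * r + 4) * J * L := by
      have e1 : Real.log (Real.log n) ≤ Real.log ((L : ℝ) ^ ((4 * r + 4) * (J + 1))) :=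
        Real.log_le_log (by linarith) (hn2.trans (by exact_mod_cast h5.le))
      rw [Real.log_pow] at e1
      have hL0 : (0 : ℝ) < L := by positivity
      have e2 : Real.log L ≤ L := (Real.log_le_sub_one_of_pos hL0).trans (by linarith)
      have e3 : (((4 * r + 4) * (J + 1) : ℕ) : ℝ) ≤ 2 * (4 * r + 4) * J := by
        have : (4 * r + 4) * (J + 1) ≤ 2 * (4 * r + 4) * J := by nlinarith
        exact_mod_cast this
      refine e1.trans (mul_le_mul e3 e2 (Real.log_natCast_nonneg L) (by positivity))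
    have h4' : ((Q * B * L : ℕ) : ℝ) * J ≤ 3 * L ^ 2 * (m + 1 : ℕ) := by exact_mod_cast h4
    rw [← mul_div_assoc, le_div_iff₀ hll]
    calc ((Q * B * L : ℕ) : ℝ) * Real.log (Real.log n)
        ≤ ((Q * B * L : ℕ) : ℝ) * (2 * (4 * r + 4) * J * L) :=
          mul_le_mul_of_nonneg_left hll2 (by positivity)
      _ = 2 * (4 * r + 4) * L * (((Q * B * L : ℕ) : ℝ) * J) := by ring
      _ ≤ 2 * (4 * r + 4) * L * (3 * L ^ 2 * (3 * Real.log n)) := by
          refine mul_le_mul_of_nonneg_left (h4'.trans ?_) (by positivity)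
          exact mul_le_mul_of_nonneg_left hn4 (by positivity)
      _ = 18 * (4 * r + 4) * L ^ 3 * Real.log n := by ring

theorem upper_core {W : Type} [Fintype W] (G : SimpleGraph W) (lG : Sym2 W → ℝ) (x y : Bool → W)
    (hxy : ∀ z, G.Adj (x z) (y z))
    (hmin : ∀ a b, G.Adj a b → lG s(x true, y true) ≤ lG s(a, b))
    (hmax : ∀ a b, G.Adj a b → lG s(a, b) ≤ lG s(x false, y false)) :
    ∃ (C : ℝ) (n₀ : ℕ), ∀ n ≥ n₀, Fintype.card W ≤ n ∧
      ∃ (S : Type) (ι : Bool × W × S → Fin n) (hι : Function.Injective ι) (l0 : Sym2 (Fin n) → ℝ),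
        Function.Injective l0 ∧ Dead G lG (host G x y hι) l0 (Set.range ι)ᶜ ∧
        ∀ H : SimpleGraph (Fin n), (∀ u v, H.Adj u v → u ∈ Set.range ι ∨ v ∈ Set.range ι) →
          (H.edgeSet.ncard : ℝ) ≤ C * (n * Real.log n / Real.log (Real.log n)) := by
  obtain ⟨C, n₀, h⟩ := zone_data (Nat.card (Sym2 W) + 2) (Fintype.card W) (by omega)
  refine ⟨2 * Fintype.card W * C, n₀, fun n hn => ?_⟩
  obtain ⟨S, _, M, s, φ, τ, hM, hτ, hemb, hfull, hle, hr, hC⟩ := h n hn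
  have hcard : Fintype.card (Bool × W × S) = 2 * Fintype.card W * Fintype.card S := by
    rw [Fintype.card_prod, Fintype.card_prod, Fintype.card_bool, mul_assoc]
  obtain ⟨ι⟩ := Function.Embedding.nonempty_of_card_le (α := Bool × W × S) (β := Fin n)
    (by rw [hcard, Fintype.card_fin]; exact hle)
  obtain ⟨l0, hl0, hd⟩ := exists_dead ι.injective hxy hmin hmax hM hτ hemb (by omega) hfull
  refine ⟨hr, S, ι, ι.injective, l0, hl0, hd, fun H hH => ?_⟩
  have h1 := edge_count ι H hH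
  rw [hcard, Fintype.card_fin] at h1
  have h2 : (H.edgeSet.ncard : ℝ) ≤ 2 * Fintype.card W * Fintype.card S * n := by
    exact_mod_cast h1
  calc (H.edgeSet.ncard : ℝ) ≤ 2 * Fintype.card W * n * Fintype.card S := by linarith
    _ ≤ 2 * Fintype.card W * n * (C * (Real.log n / Real.log (Real.log n))) :=
        mul_le_mul_of_nonneg_left hC (by positivity)
    _ = _ := by ring

theorem semi_upper {W : Type} [Fintype W] (G : SimpleGraph W) (lG : Sym2 W → ℝ)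
    (hne : ∃ a b, G.Adj a b) :
    ∃ (C : ℝ) (n₀ : ℕ), ∀ n ≥ n₀, ∃ (H : SimpleGraph (Fin n)) (lH : Sym2 (Fin n) → ℝ),
      EdgeOrdered H lH ∧ SemiSaturated H lH G lG ∧
        (H.edgeSet.ncard : ℝ) ≤ C * (n * Real.log n / Real.log (Real.log n)) := by
  obtain ⟨a0, b0, h0⟩ := hne
  obtain ⟨⟨x1, y1⟩, h1, hmin⟩ := Set.exists_min_image {p : W × W | G.Adj p.1 p.2}
    (fun p => lG s(p.1, p.2)) (Set.toFinite _) ⟨(a0, b0), h0⟩
  obtain ⟨⟨x2, y2⟩, h2, hmax⟩ := Set.exists_max_image {p : W × W | G.Adj p.1 p.2}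
    (fun p => lG s(p.1, p.2)) (Set.toFinite _) ⟨(a0, b0), h0⟩
  obtain ⟨C, n₀, h⟩ := upper_core G lG (fun z => cond z x1 x2) (fun z => cond z y1 y2)
    (fun z => by cases z; exacts [h2, h1]) (fun a b hab => hmin (a, b) hab)
    (fun a b hab => hmax (a, b) hab)
  refine ⟨C, n₀, fun n hn => ?_⟩
  obtain ⟨-, S, ι, hι, l0, hl0, hd, hcount⟩ := h n hn
  obtain ⟨H, l, e1, e2, e3⟩ := semi_of_dead hl0 (fun u v h => Exists.elim h fun _ h => Zn.hub h) hd
  exact ⟨H, l, e1, e2, hcount H e3⟩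

theorem sat_upper {W U : Type} [Fintype W] (G : SimpleGraph W) (lG : Sym2 W → ℝ) (x y : Bool → W)
    (hxy : ∀ z, G.Adj (x z) (y z))
    (hmin : ∀ a b, G.Adj a b → lG s(x true, y true) ≤ lG s(a, b))
    (hmax : ∀ a b, G.Adj a b → lG s(a, b) ≤ lG s(x false, y false))
    {K : SimpleGraph U} (F : Bool → W → U)
    (hF : ∀ z a b, G.Adj a b → s(a, b) ≠ s(x z, y z) → K.Adj (F z a) (F z b)) (o : U)
    (hx : ∀ z, F z (x z) = o) (hy : ∀ z, F z (y z) = o) (hK : IsEmpty (G →g K)) :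
    ∃ (C : ℝ) (n₀ : ℕ), ∀ n ≥ n₀, ∃ (H : SimpleGraph (Fin n)) (lH : Sym2 (Fin n) → ℝ),
      EdgeOrdered H lH ∧ Saturated H lH G lG ∧
        (H.edgeSet.ncard : ℝ) ≤ C * (n * Real.log n / Real.log (Real.log n)) := by
  obtain ⟨C, n₀, h⟩ := upper_core G lG x y hxy hmin hmax
  refine ⟨C, n₀, fun n hn => ?_⟩
  obtain ⟨hr, S, ι, hι, l0, hl0, hd, hcount⟩ := h n hn
  obtain ⟨H, l, e1, e2, e3⟩ := sat_of_dead (by rwa [Fintype.card_fin]) hl0
    (host_free hι F hF o hx hy hK l0 lG) hd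
  exact ⟨H, l, e1, e2, hcount H e3⟩

end Pool.Agent.MP_9b0ed7_co.H8
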